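import Pool.Agent.Helper40.AV.St2
import Pool.Agent.Helper40.AV.Base
import Pool.Agent.Helper14.AV.Buch

/-! Project AV, module LS5: Buchstab step for upper bounds. -/

set_option autoImplicit false

open Filter Topology

namespace Pool.Agent.Helper71.AV

open Pool.Agent.Helper40.AV
open Pool.Agent.Helper44 (primesUpTo mem_primesUpTo)

open Classical in
/-- the integers in the interval with smallest prime factor `p` -/
noncomputable def AP (y l p : ℕ) : Finset ℕ :=
  (Finset.Ico y (y + l)).filter fun n => p ∣ n ∧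
    ∀ r : ℕ, r.Prime → r ∣ n → (p : ℝ) - 1 / 2 < r

theorem mem_AP {y l p n : ℕ} : n ∈ AP y l p ↔ (y ≤ n ∧ n < y + l) ∧ p ∣ n ∧
    ∀ r : ℕ, r.Prime → r ∣ n → (p : ℝ) - 1 / 2 < r := by
  classical
  unfold AP
  rw [Finset.mem_filter, Finset.mem_Ico]

theorem mem_RS {y l n : ℕ} {z : ℝ} : n ∈ RS y l z ↔ (y ≤ n ∧ n < y + l) ∧
    ∀ r : ℕ, r.Prime → r ∣ n → z < r := by
  classical
  unfold RS
  rw [Finset.mem_filter, Finset.mem_Ico]

theorem nat_le_of_half {p q : ℕ} (h : (p : ℝ) - 1 / 2 < q) : p ≤ q := by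
  by_contra hcon
  have h1 : (q : ℝ) + 1 ≤ p := by exact_mod_cast not_le.mp hcon
  linarith

/-- Buchstab's identity, the other direction -/
theorem rev_buch (y l : ℕ) {w z : ℝ} (hw : 0 ≤ w) (hwz : w ≤ z) :
    ((RS y l z).card : ℝ) + ∑ p ∈ PI w z, ((AP y l p).card : ℝ) ≤ (RS y l w).card := by
  classical
  have hz : 0 ≤ z := hw.trans hwz
  have hsub : RS y l z ∪ (PI w z).biUnion (AP y l) ⊆ RS y l w := by
    intro n hn
    rw [Finset.mem_union] at hn
    rcases hn with hn | hn
    · rw [mem_RS] at hn ⊢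
      exact ⟨hn.1, fun r hr hrn => hwz.trans_lt (hn.2 r hr hrn)⟩
    · rw [Finset.mem_biUnion] at hn
      obtain ⟨p, hp, hn⟩ := hn
      rw [mem_PI hz] at hp
      rw [mem_AP] at hn
      rw [mem_RS]
      refine ⟨hn.1, fun r hr hrn => ?_⟩
      have h1 : (p : ℝ) ≤ r := by exact_mod_cast nat_le_of_half (hn.2.2 r hr hrn)
      linarith [hp.2.1]
  have hd1 : Disjoint (RS y l z) ((PI w z).biUnion (AP y l)) := by
    rw [Finset.disjoint_left]
    intro n hn hn'
    rw [Finset.mem_biUnion] at hn'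
    obtain ⟨p, hp, hn'⟩ := hn'
    rw [mem_PI hz] at hp
    rw [mem_AP] at hn'
    rw [mem_RS] at hn
    have := hn.2 p hp.1 hn'.2.1
    linarith [hp.2.2]
  have hd2 : Set.PairwiseDisjoint (↑(PI w z)) (AP y l) := by
    intro p hp q hq hpq
    rw [Finset.mem_coe, mem_PI hz] at hp hq
    change Disjoint _ _
    rw [Finset.disjoint_left]
    intro n hn hn'
    rw [mem_AP] at hn hn'
    have h1 := nat_le_of_half (hn.2.2 q hq.1 hn'.2.1)
    have h2 := nat_le_of_half (hn'.2.2 p hp.1 hn.2.1)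
    exact hpq (le_antisymm h1 h2)
  have h := Finset.card_le_card hsub
  rw [Finset.card_union_of_disjoint hd1, Finset.card_biUnion hd2] at h
  exact_mod_cast h

/-- the multiples of `p` -/
theorem ap_lower (y l p : ℕ) (hp : p.Prime) :
    ∃ y' l' : ℕ, |(l' : ℝ) - l / p| ≤ 1 ∧
      (RS y' l' ((p : ℝ) - 1 / 2)).card ≤ (AP y l p).card := by
  classical
  have hp0 : 0 < p := hp.pos
  set a : ℕ := (y + p - 1) / p with ha
  set b : ℕ := (y + l + p - 1) / p with hb
  have ha1 : p * a ≤ y + p - 1 := Nat.mul_div_le _ _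
  have ha2 : y + p - 1 < p * a + p := by
    have := Nat.lt_mul_div_succ (y + p - 1) hp0
    rw [mul_add, mul_one] at this
    exact this
  have hb1 : p * b ≤ y + l + p - 1 := Nat.mul_div_le _ _
  have hb2 : y + l + p - 1 < p * b + p := by
    have := Nat.lt_mul_div_succ (y + l + p - 1) hp0
    rw [mul_add, mul_one] at this
    exact this
  have hab : a ≤ b := Nat.div_le_div_right (by omega)
  refine ⟨a, b - a, ?_, ?_⟩
  · have hpR : (0 : ℝ) < p := by exact_mod_cast hp0
    have e1 : (p : ℝ) * a + 1 ≤ y + p := by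
      have : p * a + 1 ≤ y + p := by omega
      exact_mod_cast this
    have e2 : (y : ℝ) ≤ p * a := by
      have : y ≤ p * a := by omega
      exact_mod_cast this
    have e3 : (p : ℝ) * b + 1 ≤ y + l + p := by
      have : p * b + 1 ≤ y + l + p := by omega
      exact_mod_cast this
    have e4 : (y : ℝ) + l ≤ p * b := by
      have : y + l ≤ p * b := by omega
      exact_mod_cast this
    rw [Nat.cast_sub hab]
    have h1 : (b : ℝ) - a - l / p = (p * b - p * a - l) / p := by
      field_simp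
    rw [h1, abs_le]
    constructor
    · rw [le_div_iff₀ hpR]
      linarith
    · rw [div_le_iff₀ hpR]
      linarith
  · refine Finset.card_le_card_of_injOn (fun m => p * m) ?_ ?_
    · intro m hm
      rw [Finset.mem_coe, mem_RS] at hm
      rw [Finset.mem_coe, mem_AP]
      obtain ⟨⟨h1, h2⟩, h3⟩ := hm
      have h2' : m < b := by omega
      refine ⟨⟨?_, ?_⟩, Dvd.intro _ rfl, ?_⟩
      · have : p * a ≤ p * m := Nat.mul_le_mul_left _ h1
        show y ≤ p * m
        omega
      · have : p * (m + 1) ≤ p * b := Nat.mul_le_mul_left _ h2'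
        rw [mul_add, mul_one] at this
        show p * m < y + l
        omega
      · intro r hr hrn
        rcases (Nat.Prime.dvd_mul hr).1 hrn with h | h
        · rw [(Nat.prime_dvd_prime_iff_eq hr hp).1 h]
          linarith
        · exact h3 r hr h
    · intro m _ m' _ h
      exact Nat.eq_of_mul_eq_mul_left hp0 h

/-- the power gap -/
theorem pow_gap {p a : ℝ} (hp : 2 ≤ p) (ha : 2 ≤ a) : (p - 1 / 2) ^ a ≤ p ^ a - 1 := by
  have hp0 : 0 < p := by linarith
  have hq0 : 0 < p - 1 / 2 := by linarith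
  have h1 : (p - 1 / 2) ^ a = (p - 1 / 2) ^ (a - 2) * (p - 1 / 2) ^ 2 := by
    rw [← Real.rpow_natCast, ← Real.rpow_add hq0]
    congr 1
    push_cast
    ring
  have h2 : p ^ a = p ^ (a - 2) * p ^ 2 := by
    rw [← Real.rpow_natCast, ← Real.rpow_add hp0]
    congr 1
    push_cast
    ring
  have h3 : (p - 1 / 2) ^ (a - 2) ≤ p ^ (a - 2) :=
    Real.rpow_le_rpow hq0.le (by linarith) (by linarith)
  have h4 : 1 ≤ p ^ (a - 2) := Real.one_le_rpow (by linarith) (by linarith)
  have h5 : 0 ≤ (p - 1 / 2) ^ 2 := by positivity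
  rw [h1, h2]
  nlinarith [mul_le_mul_of_nonneg_right h3 h5]

/-- the bound for one prime -/
theorem ap_bound {τ f e z₀ : ℝ} (he : 0 ≤ e)
    (hf : f = 0 ∨ (3 ≤ τ ∧ ∀ z : ℝ, z₀ ≤ z → ∀ y l : ℕ, z ^ (τ - 1) ≤ l →
      (f - e) * l * VV z ≤ ((RS y l z).card : ℝ)))
    (y l p : ℕ) (hp : p.Prime) (hz : z₀ ≤ (p : ℝ) - 1 / 2) (hl : (p : ℝ) ^ τ ≤ l) :
    (f - e) * l * (VV ((p : ℝ) - 1 / 2) / p) - |f - e| ≤ ((AP y l p).card : ℝ) := by
  have hV := vv_pos ((p : ℝ) - 1 / 2)
  have hV1 := vv_le_one ((p : ℝ) - 1 / 2)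
  have hp2 : (2 : ℝ) ≤ p := by exact_mod_cast hp.two_le
  have hp0 : (0 : ℝ) < p := by linarith
  rcases hf with hf | ⟨hτ, hf⟩
  · subst hf
    have h1 : 0 ≤ e * l * (VV ((p : ℝ) - 1 / 2) / p) := by positivity
    have h2 : 0 ≤ |0 - e| := abs_nonneg _
    have h3 : (0 : ℝ) ≤ ((AP y l p).card : ℝ) := Nat.cast_nonneg _
    have h4 : (0 - e) * l * (VV ((p : ℝ) - 1 / 2) / p) = - (e * l * (VV ((p : ℝ) - 1 / 2) / p)) := by
      ring
    linarith
  · obtain ⟨y', l', hl', hc⟩ := ap_lower y l p hp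
    have habs := abs_le.1 hl'
    have h1 : ((p : ℝ) - 1 / 2) ^ (τ - 1) ≤ l' := by
      have h2 := pow_gap hp2 (show (2 : ℝ) ≤ τ - 1 by linarith)
      have h3 : (p : ℝ) ^ (τ - 1) ≤ l / p := by
        rw [Real.rpow_sub_one hp0.ne']
        exact div_le_div_of_nonneg_right hl hp0.le
      linarith [habs.1]
    have h4 := hf _ hz y' l' h1
    have h5 : ((RS y' l' ((p : ℝ) - 1 / 2)).card : ℝ) ≤ (AP y l p).card := by exact_mod_cast hc
    refine le_trans ?_ (h4.trans h5)
    have h6 : (f - e) * l * (VV ((p : ℝ) - 1 / 2) / p) - (f - e) * l' * VV ((p : ℝ) - 1 / 2) =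
        ((f - e) * VV ((p : ℝ) - 1 / 2)) * (l / p - l') := by
      ring
    have h7 : ((f - e) * VV ((p : ℝ) - 1 / 2)) * (l / p - l') ≤ |f - e| := by
      refine (le_abs_self _).trans ?_
      rw [abs_mul, abs_mul, abs_of_pos hV, abs_sub_comm (l / p : ℝ)]
      calc |f - e| * VV ((p : ℝ) - 1 / 2) * |(l' : ℝ) - l / p| ≤ |f - e| * 1 * 1 := by
            apply mul_le_mul _ hl' (abs_nonneg _) (by positivity)
            exact mul_le_mul_of_nonneg_left hV1 (abs_nonneg _)
        _ = |f - e| := by ring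
    linarith

theorem card_PI_le {w z : ℝ} (hz : 0 ≤ z) : ((PI w z).card : ℝ) ≤ z := by
  have h1 : PI w z ⊆ Finset.Icc 1 ⌊z⌋₊ := by
    intro p hp
    rw [mem_PI hz] at hp
    rw [Finset.mem_Icc]
    exact ⟨hp.1.one_le, Nat.le_floor hp.2.2⟩
  have h2 := Finset.card_le_card h1
  rw [Nat.card_Icc, Nat.add_sub_cancel] at h2
  calc ((PI w z).card : ℝ) ≤ ⌊z⌋₊ := by exact_mod_cast h2
    _ ≤ z := Nat.floor_le hz

/-- ratio of products -/
theorem vv_ratio (hM : Mertens3) {s t : ℝ} (hs : 0 < s) (ht : 0 < t) :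
    Tendsto (fun z : ℝ => VV (z ^ (s / t)) / VV z) atTop (𝓝 (t / s)) := by
  have hst : 0 < s / t := div_pos hs ht
  have h1 := hM.comp (tendsto_rpow_top hst)
  have hγ : Real.exp (-Real.eulerMascheroniConstant) ≠ 0 := (Real.exp_pos _).ne'
  have h2 := (h1.div hM hγ).mul_const (t / s)
  rw [div_self hγ, one_mul] at h2
  refine h2.congr' ?_
  filter_upwards [eventually_gt_atTop (1 : ℝ)] with z hz
  have hz0 : 0 < z := by linarith
  have hL : Real.log z ≠ 0 := (Real.log_pos hz).ne'
  have hV := (vv_pos z).ne'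
  simp only [Function.comp_apply, Pi.div_apply]
  rw [Real.log_rpow hz0]
  field_simp

theorem vv_small (hM : Mertens3) {s : ℝ} (hs : 1 < s) :
    Tendsto (fun z : ℝ => z ^ (1 - s) / VV z) atTop (𝓝 0) := by
  have hγ : Real.exp (-Real.eulerMascheroniConstant) ≠ 0 := (Real.exp_pos _).ne'
  have h1 : Tendsto (fun z : ℝ => z ^ (1 - s) * Real.log z) atTop (𝓝 0) := by
    have h2 := (isLittleO_log_rpow_atTop (show (0 : ℝ) < s - 1 by linarith)).tendsto_div_nhds_zero
    refine h2.congr' ?_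
    filter_upwards [eventually_gt_atTop (1 : ℝ)] with z hz
    have hz0 : 0 < z := by linarith
    rw [div_eq_mul_inv, ← Real.rpow_neg hz0.le, mul_comm]
    congr 2
    ring
  have h3 := h1.div hM hγ
  rw [zero_div] at h3
  refine h3.congr' ?_
  filter_upwards [eventually_gt_atTop (1 : ℝ)] with z hz
  have hL : Real.log z ≠ 0 := (Real.log_pos hz).ne'
  have hV := (vv_pos z).ne'
  simp only [Pi.div_apply]
  field_simp

/-- LS5: the Buchstab step for upper bounds -/
theorem stepUp (hM : Mertens3) : StepUp := by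
  intro s T G n t f hs h0 hn ht hf hG ε hε
  have hs0 : 0 < s := by linarith
  -- monotonicity
  have hmono : ∀ j, j ≤ n → s ≤ t j := by
    intro j
    induction j with
    | zero => intro _; rw [h0]
    | succ j ih => intro hj; exact (ih (by omega)).trans (ht j (by omega)).le
  have hT : s ≤ T := hn ▸ hmono n le_rfl
  have hT0 : 0 < T := by linarith
  -- choice of e
  set e : ℝ := ε * s / (4 * T) with he
  have he0 : 0 < e := by positivity
  obtain ⟨zG, hzG⟩ := hG e he0
  have hf' : ∀ i, ∃ z₀ : ℝ, i < n → (f i = 0 ∨ (3 ≤ t i ∧ ∀ z : ℝ, z₀ ≤ z → ∀ y l : ℕ,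
      z ^ (t i - 1) ≤ l → (f i - e) * l * VV z ≤ ((RS y l z).card : ℝ))) := by
    intro i
    by_cases hi : i < n
    · rcases hf i hi with h | ⟨h1, h2⟩
      · exact ⟨0, fun _ => Or.inl h⟩
      · obtain ⟨z₀, hz₀⟩ := h2 e he0
        exact ⟨z₀, fun _ => Or.inr ⟨h1, hz₀⟩⟩
    · exact ⟨0, fun h => absurd h hi⟩
  choose z₀ hz₀ using hf'
  set C : ℝ := ∑ i ∈ Finset.range n, |f i - e| with hC
  -- the comparison function
  set Φ : ℝ → ℝ := fun z => (G + e) * (VV (z ^ (s / T)) / VV z) -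
    ∑ i ∈ Finset.range n, (f i - e) * (VV (z ^ (s / t (i + 1))) / VV z - VV (z ^ (s / t i)) / VV z) +
    C * (z ^ (1 - s) / VV z) with hΦ
  have hlim : Tendsto Φ atTop (𝓝 ((G + e) * (T / s) -
      ∑ i ∈ Finset.range n, (f i - e) * (t (i + 1) / s - t i / s) + C * 0)) := by
    refine ((((vv_ratio hM hs0 hT0).const_mul _).sub ?_).add ((vv_small hM hs).const_mul _))
    refine tendsto_finsetSum _ fun i hi => ?_
    have hi' := Finset.mem_range.1 hi
    exact ((vv_ratio hM hs0 (by linarith [hmono (i + 1) (by omega)])).sub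
      (vv_ratio hM hs0 (by linarith [hmono i (by omega)]))).const_mul _
  have hlt : (G + e) * (T / s) -
      ∑ i ∈ Finset.range n, (f i - e) * (t (i + 1) / s - t i / s) + C * 0 <
      T / s * G - 1 / s * ∑ i ∈ Finset.range n, (t (i + 1) - t i) * f i + ε := by
    have h1 : ∑ i ∈ Finset.range n, (f i - e) * (t (i + 1) / s - t i / s) =
        1 / s * ∑ i ∈ Finset.range n, (t (i + 1) - t i) * f i - e * ((T - s) / s) := by
      have h2 : ∑ i ∈ Finset.range n, (t (i + 1) - t i) = T - s := by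
        rw [Finset.sum_range_sub, hn, h0]
      rw [← h2, Finset.mul_sum, Finset.sum_div, Finset.mul_sum, ← Finset.sum_sub_distrib]
      refine Finset.sum_congr rfl fun i _ => ?_
      field_simp
    rw [h1]
    have h3 : e * (T / s) = ε / 4 := by
      rw [he]
      field_simp
    have h4 : e * ((T - s) / s) = ε / 4 - e := by
      rw [sub_div, div_self hs0.ne', mul_sub, h3, mul_one]
    have h5 : (G + e) * (T / s) = T / s * G + e * (T / s) := by ring
    rw [h5, h3, h4]
    linarith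
  have e1 := hlim.eventually_lt_const hlt
  have e2 : ∀ᶠ z : ℝ in atTop, 1 < z := eventually_gt_atTop 1
  have tw := tendsto_rpow_top (show 0 < s / T by positivity)
  have e3 : ∀ᶠ z : ℝ in atTop, zG ≤ z ^ (s / T) := tw.eventually_ge_atTop zG
  have e4 : ∀ᶠ z : ℝ in atTop, ∀ i ∈ Finset.range n, z₀ i + 1 / 2 ≤ z ^ (s / T) := by
    rw [Filter.eventually_all_finset]
    intro i _
    exact tw.eventually_ge_atTop _
  obtain ⟨Z, hZ⟩ := eventually_atTop.1 (e1.and (e2.and (e3.and e4)))
  refine ⟨Z, fun z hz y l hl => ?_⟩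
  obtain ⟨k1, k2, k3, k4⟩ := hZ z hz
  have hz0 : 0 < z := by linarith
  have hV := vv_pos z
  have hl0 : (0 : ℝ) < l := lt_of_lt_of_le (Real.rpow_pos_of_pos hz0 _) hl
  -- the cut points
  set ζ : ℕ → ℝ := fun i => z ^ (s / t i) with hζ
  have hζ0 : ζ 0 = z := by
    simp only [hζ]
    rw [h0, div_self hs0.ne', Real.rpow_one]
  have hζn : ζ n = z ^ (s / T) := by
    simp only [hζ]
    rw [hn]
  have hζ1 : ∀ i, i ≤ n → 1 ≤ ζ i := by
    intro i hi
    exact Real.one_le_rpow k2.le (div_nonneg hs0.le (by linarith [hmono i hi]))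
  have hζa : ∀ i, i < n → ζ (i + 1) ≤ ζ i := by
    intro i hi
    apply Real.rpow_le_rpow_of_exponent_le k2.le
    apply div_le_div_of_nonneg_left hs0.le _ (ht i hi).le
    linarith [hmono i hi.le]
  have hζw : ∀ i, i ≤ n → z ^ (s / T) ≤ ζ i := by
    intro i hi
    rw [← hζn]
    have : ∀ d i : ℕ, i + d = n → ζ n ≤ ζ i := by
      intro d
      induction d with
      | zero => intro i h; rw [← h, add_zero]
      | succ d ih =>
        intro i h
        exact (ih (i + 1) (by omega)).trans (hζa i (by omega))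
    exact this (n - i) i (by omega)
  have hζz : ∀ i, i ≤ n → ζ i ≤ z := by
    intro i hi
    induction i with
    | zero => rw [hζ0]
    | succ i ih => exact (hζa i (by omega)).trans (ih (by omega))
  -- iteration of Buchstab
  have hit : ∀ j, j ≤ n → ((RS y l z).card : ℝ) + ∑ i ∈ Finset.range j,
      ∑ p ∈ PI (ζ (i + 1)) (ζ i), ((AP y l p).card : ℝ) ≤ (RS y l (ζ j)).card := by
    intro j
    induction j with
    | zero => intro _; rw [hζ0]; simp
    | succ j ih =>
      intro hj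
      have h1 := ih (by omega)
      have h2 := rev_buch y l (show 0 ≤ ζ (j + 1) by linarith [hζ1 (j + 1) hj]) (hζa j (by omega))
      rw [Finset.sum_range_succ]
      linarith
  have hmain := hit n le_rfl
  rw [hζn] at hmain
  -- the upper bound at the bottom
  have hbot := hzG _ k3 y l (by
    rw [← Real.rpow_mul hz0.le, div_mul_cancel₀ _ hT0.ne']
    exact hl)
  -- the bands
  have hband : ∀ i ∈ Finset.range n, (f i - e) * l * (VV (ζ (i + 1)) - VV (ζ i)) - |f i - e| * z ≤
      ∑ p ∈ PI (ζ (i + 1)) (ζ i), ((AP y l p).card : ℝ) := by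
    intro i hi
    have hi' := Finset.mem_range.1 hi
    have hti : 0 < t i := by linarith [hmono i hi'.le]
    rw [Pool.Agent.Helper14.AV.telescope _ _ (hζ1 (i + 1) hi') (hζa i hi'), Finset.mul_sum]
    have h1 : ∑ p ∈ PI (ζ (i + 1)) (ζ i), ((f i - e) * l * (VV ((p : ℝ) - 1 / 2) / p) - |f i - e|) ≤
        ∑ p ∈ PI (ζ (i + 1)) (ζ i), ((AP y l p).card : ℝ) := by
      refine Finset.sum_le_sum fun p hp => ?_
      have hζi : 0 ≤ ζ i := by linarith [hζ1 i hi'.le]
      rw [mem_PI hζi] at hp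
      obtain ⟨hpp, hp1, hp2⟩ := hp
      refine ap_bound he0.le (hz₀ i hi') y l p hpp ?_ ?_
      · have := k4 i hi
        have := hζw (i + 1) hi'
        linarith
      · refine le_trans ?_ hl
        have h3 : z ^ s = (ζ i) ^ (t i) := by
          simp only [hζ]
          rw [← Real.rpow_mul hz0.le, div_mul_cancel₀ _ hti.ne']
        rw [h3]
        exact Real.rpow_le_rpow (Nat.cast_nonneg _) hp2 hti.le
    rw [Finset.sum_sub_distrib, Finset.sum_const, nsmul_eq_mul] at h1
    have h4 : ((PI (ζ (i + 1)) (ζ i)).card : ℝ) * |f i - e| ≤ |f i - e| * z := by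
      rw [mul_comm]
      apply mul_le_mul_of_nonneg_left _ (abs_nonneg _)
      exact (card_PI_le (by linarith [hζ1 i hi'.le])).trans (hζz i hi'.le)
    linarith
  have hsum := Finset.sum_le_sum hband
  rw [Finset.sum_sub_distrib, ← Finset.sum_mul] at hsum
  -- collect
  have hzl : z ≤ l * z ^ (1 - s) := by
    calc z = z ^ s * z ^ (1 - s) := by
          rw [← Real.rpow_add hz0]
          ring_nf
          rw [Real.rpow_one]
      _ ≤ l * z ^ (1 - s) := mul_le_mul_of_nonneg_right hl (Real.rpow_nonneg hz0.le _)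
  have hC0 : 0 ≤ C := Finset.sum_nonneg fun i _ => abs_nonneg _
  have hfin : ((RS y l z).card : ℝ) ≤ Φ z * l * VV z := by
    have h1 : Φ z * l * VV z = (G + e) * l * VV (z ^ (s / T)) -
        ∑ i ∈ Finset.range n, (f i - e) * l * (VV (ζ (i + 1)) - VV (ζ i)) +
        C * (l * z ^ (1 - s)) := by
      simp only [hΦ]
      rw [add_mul, add_mul, sub_mul, sub_mul, Finset.sum_mul, Finset.sum_mul]
      have h2 : (G + e) * (VV (z ^ (s / T)) / VV z) * l * VV z = (G + e) * l * VV (z ^ (s / T)) := by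
        field_simp
      have h3 : C * (z ^ (1 - s) / VV z) * l * VV z = C * (l * z ^ (1 - s)) := by
        field_simp
      rw [h2, h3]
      congr 2
      refine Finset.sum_congr rfl fun i _ => ?_
      simp only [hζ]
      field_simp
    rw [h1]
    have h5 : C * z ≤ C * (l * z ^ (1 - s)) := mul_le_mul_of_nonneg_left hzl hC0
    linarith
  refine hfin.trans ?_
  have h6 : Φ z * (l * VV z) ≤
      (T / s * G - 1 / s * ∑ i ∈ Finset.range n, (t (i + 1) - t i) * f i + ε) * (l * VV z) :=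
    mul_le_mul_of_nonneg_right k1.le (by positivity)
  linarith

end Pool.Agent.Helper71.AV
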